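import Pool.Agent.P8H18.RR.Stm3

/-!
# Project DS: package COP
-/

set_option autoImplicit false

namespace Pool.Agent.P8H65.DS

open Finset Pool.Agent.P8H18.RR Pool.Agent.P8H18.DS

lemma ee_add (x y : ℝ) : ee (x + y) = ee x * ee y := by
  unfold ee
  rw [← Complex.exp_add]
  congr 1
  push_cast
  ring

lemma norm_ee (x : ℝ) : ‖ee x‖ = 1 := by
  unfold ee
  rw [show (2 * Real.pi * Complex.I * x : ℂ) = ((2 * Real.pi * x : ℝ) : ℂ) * Complex.I by
    push_cast; ring]
  exact Complex.norm_exp_ofReal_mul_I _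

lemma ee_int (m : ℤ) : ee (m : ℝ) = 1 := by
  unfold ee
  rw [show (2 * Real.pi * Complex.I * ((m : ℝ) : ℂ) : ℂ) = (m : ℂ) * (2 * Real.pi * Complex.I) by
    push_cast; ring]
  exact Complex.exp_int_mul_two_pi_mul_I m

/-- `|1 - e(t)| ≥ 4 |t|` for `|t| ≤ 1/2` -/
lemma norm_one_sub (t : ℝ) (ht : |t| ≤ 1 / 2) : 4 * |t| ≤ ‖1 - ee t‖ := by
  have e : ee t = Complex.exp (Complex.I * ((2 * Real.pi * t : ℝ) : ℂ)) := by
    unfold ee
    congr 1
    push_cast
    ring
  rw [norm_sub_rev, e, Complex.norm_exp_I_mul_ofReal_sub_one, Real.norm_eq_abs, abs_mul,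
    show 2 * Real.pi * t / 2 = Real.pi * t by ring]
  have h0 : |(2 : ℝ)| = 2 := abs_of_pos two_pos
  rw [h0]
  have key : 2 * |t| ≤ |Real.sin (Real.pi * t)| := by
    have h1 : |Real.sin (Real.pi * t)| = |Real.sin (Real.pi * |t|)| := by
      rcases abs_cases t with ⟨h, _⟩ | ⟨h, _⟩
      · rw [h]
      · rw [h, mul_neg, Real.sin_neg, abs_neg]
    rw [h1]
    have h2 : 2 / Real.pi * (Real.pi * |t|) ≤ Real.sin (Real.pi * |t|) := by
      refine Real.mul_le_sin (by positivity) ?_
      have := mul_le_mul_of_nonneg_left ht Real.pi_pos.le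
      linarith
    have h3 : 2 / Real.pi * (Real.pi * |t|) = 2 * |t| := by
      have := Real.pi_pos.ne'
      field_simp
    rw [h3] at h2
    exact h2.trans (le_abs_self _)
  linarith

/-- **COP.** -/
theorem cop : S_COP := by
  intro x q a α hq hq10 hco hα
  have hqR : (0 : ℝ) < q := by exact_mod_cast hq
  -- the distance of `10 α` to the integers
  have hdist : ∀ m : ℤ, 1 / (2 * q) ≤ |10 * α - m| := by
    intro m
    have h1 : (10 * a - m * q : ℤ) ≠ 0 := by
      intro h
      have h2 : (q : ℤ) ∣ 10 * a := ⟨m, by linarith⟩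
      have h3 : (q : ℤ) ∣ 10 := hco.symm.dvd_of_dvd_mul_right h2
      exact hq10 (by exact_mod_cast h3)
    have h2 : (1 : ℝ) ≤ |(10 * a - m * q : ℝ)| := by
      have := Int.one_le_abs h1
      exact_mod_cast this
    have h3 : 1 / (q : ℝ) ≤ |10 * ((a : ℝ) / q) - m| := by
      have e : 10 * ((a : ℝ) / q) - m = (10 * a - m * q) / q := by
        field_simp
      rw [e, abs_div, abs_of_pos hqR]
      exact div_le_div_of_nonneg_right h2 hqR.le
    have h4 : |10 * ((a : ℝ) / q) - m| ≤ |10 * α - m| + 10 * |α - a / q| := by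
      have e : 10 * ((a : ℝ) / q) - m = (10 * α - m) - 10 * (α - a / q) := by ring
      rw [e]
      refine (abs_sub _ _).trans ?_
      rw [abs_mul, abs_of_pos (by norm_num : (0 : ℝ) < 10)]
    have h5 : 10 * |α - a / q| ≤ 1 / (2 * q) := by
      have e : 1 / (2 * (q : ℝ)) = 10 * (1 / (20 * q)) := by
        field_simp
        norm_num
      rw [e]
      linarith
    have h6 : 1 / (q : ℝ) = 1 / (2 * q) + 1 / (2 * q) := by
      field_simp
      norm_num
    linarith
  have hlow : 2 / (q : ℝ) ≤ ‖1 - ee (10 * α)‖ := by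
    obtain ⟨t, ht⟩ : ∃ t, t = 10 * α - round (10 * α) := ⟨_, rfl⟩
    have h1 : |t| ≤ 1 / 2 := by
      rw [ht]
      exact abs_sub_round _
    have h2 : ee (10 * α) = ee t := by
      have e : 10 * α = t + (round (10 * α) : ℝ) := by
        rw [ht]
        ring
      rw [e, ee_add, ee_int, mul_one]
    rw [h2]
    refine le_trans ?_ (norm_one_sub t h1)
    have h3 := hdist (round (10 * α))
    rw [← ht] at h3
    have e : 2 / (q : ℝ) = 4 * (1 / (2 * q)) := by
      field_simp
      norm_num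
    rw [e]
    linarith
  -- telescoping
  obtain ⟨f, hf⟩ : ∃ f : ℕ → ℂ, f = fun n => if n.Coprime 10 then ee ((n : ℝ) * α) else 0 := ⟨_, rfl⟩
  have hCP : CP x α = ∑ n ∈ Ico 1 (x + 1), f n := by
    unfold CP
    rw [Finset.sum_filter, hf]
    rfl
  have hshift : ∀ n, f (n + 10) = ee (10 * α) * f n := by
    intro n
    have h1 : (n + 10).Coprime 10 ↔ n.Coprime 10 := by
      rw [Nat.coprime_add_self_left]
    rw [hf]
    show (if (n + 10).Coprime 10 then ee (((n + 10 : ℕ) : ℝ) * α) else 0) =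
      ee (10 * α) * (if n.Coprime 10 then ee ((n : ℝ) * α) else 0)
    by_cases hc : n.Coprime 10
    · rw [if_pos (h1.2 hc), if_pos hc, ← ee_add]
      congr 1
      push_cast
      ring
    · rw [if_neg (fun h => hc (h1.1 h)), if_neg hc, mul_zero]
  have hblock : ∀ m, ‖∑ n ∈ Ico m (m + 10), f n‖ ≤ 4 := by
    intro m
    have h1 : ∑ n ∈ Ico m (m + 10), f n =
        ∑ n ∈ (Ico m (m + 10)).filter (fun n => Nat.Coprime 10 n), ee ((n : ℝ) * α) := by
      rw [Finset.sum_filter, hf]
      refine Finset.sum_congr rfl (fun n _ => ?_)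
      exact if_congr (Nat.coprime_comm) rfl rfl
    rw [h1]
    refine (norm_sum_le _ _).trans ?_
    simp only [norm_ee, Finset.sum_const, nsmul_eq_mul, mul_one]
    rw [Nat.filter_coprime_Ico_eq_totient]
    have : Nat.totient 10 = 4 := by decide
    rw [this]
    norm_num
  have htel : (1 - ee (10 * α)) * CP x α =
      ∑ n ∈ Ico 1 (1 + 10), f n - ∑ n ∈ Ico (x + 1) (x + 1 + 10), f n := by
    have h1 : ee (10 * α) * CP x α = ∑ n ∈ Ico (1 + 10) (x + 1 + 10), f n := by
      rw [hCP, Finset.mul_sum, ← Finset.sum_Ico_add']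
      exact Finset.sum_congr rfl (fun n _ => (hshift n).symm)
    have h2 := Finset.sum_Ico_consecutive f (show 1 ≤ 1 + 10 by omega)
      (show 1 + 10 ≤ x + 1 + 10 by omega)
    have h3 := Finset.sum_Ico_consecutive f (show 1 ≤ x + 1 by omega)
      (show x + 1 ≤ x + 1 + 10 by omega)
    rw [sub_mul, one_mul, h1, hCP]
    linear_combination h3 - h2
  have hnorm : ‖1 - ee (10 * α)‖ * ‖CP x α‖ ≤ 8 := by
    rw [← norm_mul, htel]
    refine (norm_sub_le _ _).trans ?_
    have h1 := hblock 1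
    have h2 := hblock (x + 1)
    linarith
  have h1 : 2 / (q : ℝ) * ‖CP x α‖ ≤ 8 :=
    (mul_le_mul_of_nonneg_right hlow (norm_nonneg _)).trans hnorm
  have h2 : ‖CP x α‖ ≤ 4 * q := by
    rw [div_mul_eq_mul_div, div_le_iff₀ hqR] at h1
    linarith
  linarith

end Pool.Agent.P8H65.DS
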