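import Pool.Agent.P8H18.RR.Stm3

/-!
# Project DS: package ZERO
-/

set_option autoImplicit false

namespace Pool.Agent.P8H65.DS

open Finset Pool.Agent.P8H18.RR Pool.Agent.P8H18.DS

lemma sum_mul_range (G : ℕ → ℝ) (A B : ℕ) :
    ∑ n ∈ range (A * B), G n = ∑ a ∈ range A, ∑ b ∈ range B, G (a * B + b) := by
  induction A with
  | zero => simp
  | succ A ih => rw [Nat.succ_mul, Finset.sum_range_add, ih, Finset.sum_range_succ]

/-- `F` does not depend on the digit at the place `j` -/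
def Inv (F : ℕ → ℝ) (j : ℕ) : Prop :=
  ∀ n m : ℕ, n / 10 ^ (j + 1) = m / 10 ^ (j + 1) → n % 10 ^ j = m % 10 ^ j → F n = F m

lemma dig_inv (i j n m : ℕ) (hij : i ≠ j) (h1 : n / 10 ^ (j + 1) = m / 10 ^ (j + 1))
    (h2 : n % 10 ^ j = m % 10 ^ j) : dig n i = dig m i := by
  unfold dig
  rcases Nat.lt_or_gt_of_ne hij with h | h
  · have e : ∀ n : ℕ, n / 10 ^ i % 10 = n % 10 ^ j % 10 ^ (i + 1) / 10 ^ i := by
      intro n
      rw [Nat.mod_mod_of_dvd n (pow_dvd_pow 10 h), pow_succ, Nat.mod_mul_right_div_self]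
    rw [e, e, h2]
  · obtain ⟨l, rfl⟩ := Nat.exists_eq_add_of_lt h
    have e : ∀ n : ℕ, n / 10 ^ (j + l + 1) = n / 10 ^ (j + 1) / 10 ^ l := by
      intro n
      rw [Nat.div_div_eq_div_mul, ← pow_add]
      congr 2
      ring
    rw [e, e, h1]

/-- the mean over one digit -/
lemma one_digit (K j d : ℕ) (hj : j < K) (hd : d < 10) (F : ℕ → ℝ) (hF : Inv F j) :
    ∑ n ∈ range (10 ^ K), F n * ((if dig n j = d then 1 else 0) - 1 / 10) = 0 := by
  obtain ⟨l, rfl⟩ := Nat.exists_eq_add_of_lt hj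
  have e : 10 ^ (j + l + 1) = 10 ^ l * (10 * 10 ^ j) := by ring
  rw [e, sum_mul_range]
  refine Finset.sum_eq_zero (fun a _ => ?_)
  have h1 : ∀ u < 10, ∀ b < 10 ^ j, F (a * (10 * 10 ^ j) + (u * 10 ^ j + b)) *
      ((if dig (a * (10 * 10 ^ j) + (u * 10 ^ j + b)) j = d then 1 else 0) - 1 / 10) =
      F (a * (10 * 10 ^ j) + b) * ((if u = d then 1 else 0) - 1 / 10) := by
    intro u hu b hb
    have hpos : 0 < 10 ^ j := by positivity
    have hd1 : (a * (10 * 10 ^ j) + (u * 10 ^ j + b)) / 10 ^ j = 10 * a + u := by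
      have : a * (10 * 10 ^ j) + (u * 10 ^ j + b) = b + (10 * a + u) * 10 ^ j := by ring
      rw [this, Nat.add_mul_div_right _ _ hpos, Nat.div_eq_of_lt hb, zero_add]
    have hd2 : dig (a * (10 * 10 ^ j) + (u * 10 ^ j + b)) j = u := by
      unfold dig
      rw [hd1]
      omega
    have hd3 : (a * (10 * 10 ^ j) + b) / 10 ^ j = 10 * a := by
      have : a * (10 * 10 ^ j) + b = b + (10 * a) * 10 ^ j := by ring
      rw [this, Nat.add_mul_div_right _ _ hpos, Nat.div_eq_of_lt hb, zero_add]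
    rw [hd2, hF (a * (10 * 10 ^ j) + (u * 10 ^ j + b)) (a * (10 * 10 ^ j) + b)]
    · rw [pow_succ, ← Nat.div_div_eq_div_mul, ← Nat.div_div_eq_div_mul, hd1, hd3]
      omega
    · have e1 : a * (10 * 10 ^ j) + (u * 10 ^ j + b) = b + (10 * a + u) * 10 ^ j := by ring
      have e2 : a * (10 * 10 ^ j) + b = b + (10 * a) * 10 ^ j := by ring
      rw [e1, e2, Nat.add_mul_mod_self_right, Nat.add_mul_mod_self_right]
  rw [sum_mul_range (fun b => F (a * (10 * 10 ^ j) + b) *
    ((if dig (a * (10 * 10 ^ j) + b) j = d then 1 else 0) - 1 / 10))]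
  rw [Finset.sum_congr rfl (fun u hu => Finset.sum_congr rfl (fun b hb =>
    h1 u (Finset.mem_range.1 hu) b (Finset.mem_range.1 hb))), Finset.sum_comm]
  refine Finset.sum_eq_zero (fun b _ => ?_)
  rw [← Finset.mul_sum, Finset.sum_sub_distrib, Finset.sum_ite_eq', if_pos (Finset.mem_range.2 hd),
    Finset.sum_const, Finset.card_range]
  norm_num

/-- **ZERO.** -/
theorem zero : S_ZERO := by
  classical
  intro L S hS hSL d d' e f hd hd'
  obtain ⟨j, hj⟩ := hS
  have hjL := Finset.mem_Ioo.1 (hSL hj)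
  obtain ⟨F, hFd⟩ : ∃ F : ℕ → ℝ, F = fun n => if n.Coprime 10 ∧ dig n 0 = e ∧ dig n (2 * L) = f then
    ∏ i ∈ S.erase j, bal L i (d i) (d' i) n else 0 := ⟨_, rfl⟩
  have hFinv : ∀ p, p ≠ 0 → p ≠ 2 * L → (∀ i ∈ S.erase j, i ≠ p ∧ 2 * L - i ≠ p) → Inv F p := by
    intro p hp0 hp1 hp2 n m h1 h2
    have c1 : ∀ n : ℕ, n.Coprime 10 ↔ (dig n 0).Coprime 10 := by
      intro n
      unfold dig Nat.Coprime
      rw [pow_zero, Nat.div_one, Nat.gcd_comm n, Nat.gcd_rec]
    have c2 := dig_inv 0 p n m (Ne.symm hp0) h1 h2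
    have c3 := dig_inv (2 * L) p n m (Ne.symm hp1) h1 h2
    rw [hFd]
    show (if n.Coprime 10 ∧ dig n 0 = e ∧ dig n (2 * L) = f then
      ∏ i ∈ S.erase j, bal L i (d i) (d' i) n else 0) = (if m.Coprime 10 ∧ dig m 0 = e ∧
      dig m (2 * L) = f then ∏ i ∈ S.erase j, bal L i (d i) (d' i) m else 0)
    have c4 : ∏ i ∈ S.erase j, bal L i (d i) (d' i) n = ∏ i ∈ S.erase j, bal L i (d i) (d' i) m := by
      refine Finset.prod_congr rfl (fun i hi => ?_)
      unfold bal
      rw [dig_inv i p n m (hp2 i hi).1 h1 h2, dig_inv (2 * L - i) p n m (hp2 i hi).2 h1 h2]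
    have c5 : (n.Coprime 10 ∧ dig n 0 = e ∧ dig n (2 * L) = f) ↔
        (m.Coprime 10 ∧ dig m 0 = e ∧ dig m (2 * L) = f) := by
      rw [c1 n, c1 m, c2, c3]
    exact if_congr c5 c4 rfl
  have i1 : Inv F j := by
    refine hFinv j (by omega) (by omega) (fun i hi => ?_)
    rw [Finset.mem_erase] at hi
    have := Finset.mem_Ioo.1 (hSL hi.2)
    exact ⟨hi.1, by omega⟩
  have i2 : Inv F (2 * L - j) := by
    refine hFinv _ (by omega) (by omega) (fun i hi => ?_)
    rw [Finset.mem_erase] at hi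
    have := Finset.mem_Ioo.1 (hSL hi.2)
    have := hi.1
    exact ⟨by omega, by omega⟩
  have key : ∑ n ∈ (range (10 ^ (2 * L + 1))).filter (fun n => n.Coprime 10 ∧ dig n 0 = e ∧
      dig n (2 * L) = f), ∏ i ∈ S, bal L i (d i) (d' i) n =
      ∑ n ∈ range (10 ^ (2 * L + 1)), ((F n * (if dig n (2 * L - j) = d' j then 1 else 0)) *
        ((if dig n j = d j then 1 else 0) - 1 / 10) +
        (F n * (1 / 10)) * ((if dig n (2 * L - j) = d' j then 1 else 0) - 1 / 10)) := by
    rw [Finset.sum_filter]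
    refine Finset.sum_congr rfl (fun n _ => ?_)
    rw [hFd]
    by_cases hc : n.Coprime 10 ∧ dig n 0 = e ∧ dig n (2 * L) = f
    · simp only [if_pos hc]
      rw [← Finset.mul_prod_erase S _ hj]
      unfold bal
      by_cases ha : dig n j = d j
      · by_cases hb : dig n (2 * L - j) = d' j
        · rw [if_pos ⟨ha, hb⟩, if_pos ha, if_pos hb]
          ring
        · rw [if_neg (fun h => hb h.2), if_pos ha, if_neg hb]
          ring
      · by_cases hb : dig n (2 * L - j) = d' j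
        · rw [if_neg (fun h => ha h.1), if_neg ha, if_pos hb]
          ring
        · rw [if_neg (fun h => ha h.1), if_neg ha, if_neg hb]
          ring
    · simp only [if_neg hc]
      ring
  rw [key, Finset.sum_add_distrib, one_digit (2 * L + 1) j (d j) (by omega) (hd j),
    one_digit (2 * L + 1) (2 * L - j) (d' j) (by omega) (hd' j), add_zero]
  · intro n m h1 h2
    show F n * (1 / 10) = F m * (1 / 10)
    rw [i2 n m h1 h2]
  · intro n m h1 h2
    show F n * (if dig n (2 * L - j) = d' j then 1 else 0) =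
      F m * (if dig m (2 * L - j) = d' j then 1 else 0)
    rw [i1 n m h1 h2, dig_inv (2 * L - j) j n m (by omega) h1 h2]

end Pool.Agent.P8H65.DS
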